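import Pool.Agent.N708.MX.Stm

/-!
# MX/ACT: finite actions of `E_3(A)`
-/

set_option autoImplicit false

namespace Pool.Agent.N495.MX

open Pool.Agent.N44.NS (el E3)
open Pool.Agent.N708.MX

noncomputable section

variable {A : Type} [Ring A] {W : Type} [AddCommGroup W]

/-- the action of a matrix on `W³` -/
def act (ρ : A →+* AddMonoid.End W) (M : Matrix (Fin 3) (Fin 3) A) (v : Fin 3 → W) : Fin 3 → W :=
  fun i => ∑ j, ρ (M i j) (v j)

theorem end_sum (f : Fin 3 → AddMonoid.End W) (x : W) : (∑ k, f k) x = ∑ k, f k x := by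
  rw [Fin.sum_univ_three, Fin.sum_univ_three]
  rfl

theorem act_mul (ρ : A →+* AddMonoid.End W) (M N : Matrix (Fin 3) (Fin 3) A) (v : Fin 3 → W) :
    act ρ (M * N) v = act ρ M (act ρ N v) := by
  funext i
  unfold act
  have h1 : ∀ j, ρ ((M * N) i j) (v j) = ∑ k, ρ (M i k) (ρ (N k j) (v j)) := by
    intro j
    rw [Matrix.mul_apply, map_sum, end_sum]
    apply Finset.sum_congr rfl
    intro k _
    rw [map_mul]
    rfl
  rw [Finset.sum_congr rfl fun j _ => h1 j, Finset.sum_comm]
  apply Finset.sum_congr rfl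
  intro k _
  rw [map_sum]

theorem act_one (ρ : A →+* AddMonoid.End W) (v : Fin 3 → W) : act ρ 1 v = v := by
  funext i
  unfold act
  rw [Finset.sum_eq_single i]
  · rw [Matrix.one_apply_eq, map_one]
    rfl
  · intro j _ hj
    rw [Matrix.one_apply_ne hj.symm, map_zero]
    rfl
  · intro h
    exact absurd (Finset.mem_univ _) h

/-- the action by permutations -/
def actP (ρ : A →+* AddMonoid.End W) : (Matrix (Fin 3) (Fin 3) A)ˣ →* Equiv.Perm (Fin 3 → W) where
  toFun M :=
    { toFun := act ρ M.val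
      invFun := act ρ (M⁻¹).val
      left_inv := fun v => by rw [← act_mul, Units.inv_mul, act_one]
      right_inv := fun v => by rw [← act_mul, Units.mul_inv, act_one] }
  map_one' := by
    ext1 v
    exact act_one ρ v
  map_mul' M N := by
    ext1 v
    exact act_mul ρ M.val N.val v

theorem act_fix (ρ : A →+* AddMonoid.End W) (b : A) (v : Fin 3 → W) :
    act ρ (1 + Matrix.single 0 1 b) v = v ↔ ρ b (v 1) = 0 := by
  have h1 : act ρ (1 + Matrix.single 0 1 b) v = v + act ρ (Matrix.single 0 1 b) v := by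
    funext i
    have h2 := congrFun (act_one ρ v) i
    unfold act at h2 ⊢
    rw [Pi.add_apply, ← h2, ← Finset.sum_add_distrib]
    apply Finset.sum_congr rfl
    intro j _
    rw [Matrix.add_apply, map_add]
    rfl
  have h3 : ∀ i, act ρ (Matrix.single 0 1 b) v i = if i = 0 then ρ b (v 1) else 0 := by
    intro i
    unfold act
    rw [Fin.sum_univ_three]
    fin_cases i
    · have e0 : (Matrix.single 0 1 b : Matrix (Fin 3) (Fin 3) A) 0 0 = 0 := by
        apply Matrix.single_apply_of_ne; decide
      have e1 : (Matrix.single 0 1 b : Matrix (Fin 3) (Fin 3) A) 0 1 = b :=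
        Matrix.single_apply_same _ _ _
      have e2 : (Matrix.single 0 1 b : Matrix (Fin 3) (Fin 3) A) 0 2 = 0 := by
        apply Matrix.single_apply_of_ne; decide
      show ρ ((Matrix.single 0 1 b : Matrix (Fin 3) (Fin 3) A) 0 0) (v 0) +
        ρ ((Matrix.single 0 1 b : Matrix (Fin 3) (Fin 3) A) 0 1) (v 1) +
        ρ ((Matrix.single 0 1 b : Matrix (Fin 3) (Fin 3) A) 0 2) (v 2) = ρ b (v 1)
      rw [e0, e1, e2, map_zero]
      simp
    · have e0 : ∀ j, (Matrix.single 0 1 b : Matrix (Fin 3) (Fin 3) A) 1 j = 0 := by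
        intro j
        apply Matrix.single_apply_of_ne
        intro h
        exact absurd h.1 (by decide)
      show ρ ((Matrix.single 0 1 b : Matrix (Fin 3) (Fin 3) A) 1 0) (v 0) +
        ρ ((Matrix.single 0 1 b : Matrix (Fin 3) (Fin 3) A) 1 1) (v 1) +
        ρ ((Matrix.single 0 1 b : Matrix (Fin 3) (Fin 3) A) 1 2) (v 2) = 0
      rw [e0, e0, e0, map_zero]
      simp
    · have e0 : ∀ j, (Matrix.single 0 1 b : Matrix (Fin 3) (Fin 3) A) 2 j = 0 := by
        intro j
        apply Matrix.single_apply_of_ne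
        intro h
        exact absurd h.1 (by decide)
      show ρ ((Matrix.single 0 1 b : Matrix (Fin 3) (Fin 3) A) 2 0) (v 0) +
        ρ ((Matrix.single 0 1 b : Matrix (Fin 3) (Fin 3) A) 2 1) (v 1) +
        ρ ((Matrix.single 0 1 b : Matrix (Fin 3) (Fin 3) A) 2 2) (v 2) = 0
      rw [e0, e0, e0, map_zero]
      simp
  rw [h1]
  constructor
  · intro h
    have h4 := congrFun h 0
    rw [Pi.add_apply, h3, if_pos rfl] at h4
    simpa using h4
  · intro h
    funext i
    rw [Pi.add_apply, h3, h]
    simp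

theorem count_fix [Fintype W] [DecidableEq W] (ρ : A →+* AddMonoid.End W) (b : A)
    (hb : ρ b ≠ 0) :
    2 * (Finset.univ.filter fun v : Fin 3 → W => ρ b (v 1) = 0).card ≤
      Fintype.card (Fin 3 → W) := by
  obtain ⟨x, hx⟩ : ∃ x, ρ b x ≠ 0 := by
    by_contra hcon
    push Not at hcon
    apply hb
    ext x
    exact hcon x
  have h1 : (Finset.univ.filter fun v : Fin 3 → W => ρ b (v 1) = 0).card ≤
      (Finset.univ.filter fun v : Fin 3 → W => ¬ ρ b (v 1) = 0).card := by
    apply Finset.card_le_card_of_injOn (fun v => v + (Pi.single 1 x : Fin 3 → W))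
    · intro v hv
      have hv' : ρ b (v 1) = 0 := by simpa using hv
      have : ¬ ρ b ((v + (Pi.single 1 x : Fin 3 → W)) 1) = 0 := by
        rw [Pi.add_apply, Pi.single_eq_same, map_add, hv', zero_add]
        exact hx
      simpa using this
    · intro v _ w _ hvw
      exact add_right_cancel hvw
  have h2 : (Finset.univ.filter fun v : Fin 3 → W => ρ b (v 1) = 0).card +
      (Finset.univ.filter fun v : Fin 3 → W => ¬ ρ b (v 1) = 0).card =
      Fintype.card (Fin 3 → W) := by
    rw [← Finset.card_univ, Finset.card_filter_add_card_filter_not]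
  omega

theorem t_ACT : S_ACT := by
  intro A _ ψ φ hφ W _ _ _ ρ m hm
  refine ⟨Fin 3 → W, inferInstance, inferInstance, inferInstance,
    (actP ρ).comp (E3 A).subtype, ?_⟩
  intro j hj
  have hit : ∀ j : ℕ, φ^[j] ⟨el 0 1 (by decide) 1,
      Subgroup.subset_closure ⟨0, 1, by decide, 1, rfl⟩⟩ = ⟨el 0 1 (by decide) (ψ^[j] 1),
      Subgroup.subset_closure ⟨0, 1, by decide, ψ^[j] 1, rfl⟩⟩ := by
    intro j
    induction j with
    | zero => rfl
    | succ j ih =>
      rw [Function.iterate_succ_apply', ih]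
      apply Subtype.ext
      have := hφ 0 1 (by decide) (ψ^[j] 1)
      rw [Function.iterate_succ_apply']
      exact this
  rw [hit j]
  refine le_trans (le_of_eq ?_) (count_fix ρ (ψ^[j] 1) (hm j hj))
  congr 2
  apply Finset.filter_congr
  intro v _
  exact act_fix ρ (ψ^[j] 1) v

end

end Pool.Agent.N495.MX
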